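import Mathlib
import Pool.Agent.Helper916.Asym

/-!
# Explicit versions of the asymptotic inequalities
-/

set_option autoImplicit false

namespace Pool.Agent.Y799.CO

open Pool.Agent.Helper916

theorem log_le_sqrt {t : ℝ} (ht : 1 ≤ t) : Real.log t ≤ 2 * (√t - 1) := by
  have h0 : (0 : ℝ) < t := by linarith
  have h1 : 0 < √t := Real.sqrt_pos.2 h0
  have h2 : Real.log t = 2 * Real.log √t := by
    rw [Real.log_sqrt h0.le]; ring
  rw [h2]
  have := Real.log_le_sub_one_of_pos h1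
  linarith

theorem log_ten : Real.log 10 ≤ 2.3105 := by
  have h1 : 3 * Real.log 10 ≤ 10 * Real.log 2 := by
    have h2 : Real.log ((10 : ℝ) ^ 3) ≤ Real.log ((2 : ℝ) ^ 10) :=
      Real.log_le_log (by norm_num) (by norm_num)
    rw [Real.log_pow, Real.log_pow] at h2
    exact_mod_cast h2
  have h2 := Real.log_two_lt_d9
  norm_num at h2 ⊢
  linarith

/-- the key estimate, with `q = y ^ k`, `y ≥ 10 ^ m` -/
theorem log_sq_le {k m : ℕ} {y : ℝ} (hy : 10 ^ m ≤ y) {A : ℝ}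
    (hA : 1 + k * m * 2.3105 ≤ A) (hk : 2 * (k : ℝ) ≤ A) :
    (1 + k * Real.log y) ^ 2 ≤ A ^ 2 * (y / 10 ^ m) := by
  have h10 : (0 : ℝ) < 10 ^ m := by positivity
  have hy0 : 0 < y := by linarith
  obtain ⟨t, ht⟩ : ∃ t : ℝ, t = y / 10 ^ m := ⟨_, rfl⟩
  have ht1 : 1 ≤ t := by rw [ht, le_div_iff₀ h10]; linarith
  have hyt : y = 10 ^ m * t := by rw [ht]; field_simp
  have hlog : Real.log y = m * Real.log 10 + Real.log t := by
    rw [hyt, Real.log_mul (by positivity) (by positivity), Real.log_pow]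
  have h1 := log_le_sqrt ht1
  have hs1 : 1 ≤ √t := by
    rw [show (1 : ℝ) = √1 by simp]
    exact Real.sqrt_le_sqrt ht1
  have h2 := log_ten
  have hlog0 : 0 ≤ Real.log t := Real.log_nonneg ht1
  have h100 : 0 ≤ Real.log 10 := Real.log_nonneg (by norm_num)
  have hk0 : (0 : ℝ) ≤ k := Nat.cast_nonneg k
  have hm0 : (0 : ℝ) ≤ m := Nat.cast_nonneg m
  have hub : 1 + k * Real.log y ≤ A * √t := by
    rw [hlog]
    have e1 : (k : ℝ) * (m * Real.log 10) ≤ k * (m * 2.3105) := by gcongr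
    have e2 : (k : ℝ) * Real.log t ≤ k * (2 * (√t - 1)) := by gcongr
    have e3 : 2 * (k : ℝ) * (√t - 1) ≤ A * (√t - 1) :=
      mul_le_mul_of_nonneg_right hk (by linarith)
    calc 1 + k * (m * Real.log 10 + Real.log t) =
        1 + k * (m * Real.log 10) + k * Real.log t := by ring
      _ ≤ 1 + k * m * 2.3105 + 2 * k * (√t - 1) := by linarith
      _ ≤ A * √t := by linarith
  have hlb : 0 ≤ 1 + k * Real.log y := by
    rw [hlog]
    positivity
  calc (1 + k * Real.log y) ^ 2 ≤ (A * √t) ^ 2 := pow_le_pow_left₀ hlb hub 2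
    _ = A ^ 2 * t := by rw [mul_pow, Real.sq_sqrt (by linarith)]
    _ = _ := by rw [ht]

theorem keyG {q : ℝ} (hq : 10 ^ 80 ≤ q) :
    q ^ (7 / 8 : ℝ) * (1 + Real.log q) ^ 2 ≤ (34552 / 10 ^ 10) * q := by
  have hq0 : (0 : ℝ) < q := lt_of_lt_of_le (by positivity) hq
  obtain ⟨y, hy⟩ : ∃ y : ℝ, y = q ^ (1 / 8 : ℝ) := ⟨_, rfl⟩
  have hy0 : 0 < y := by rw [hy]; positivity
  have hyq : q ^ (7 / 8 : ℝ) * y = q := by
    rw [hy, ← Real.rpow_add hq0]
    norm_num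
  have hlog : Real.log q = 8 * Real.log y := by
    rw [hy, Real.log_rpow hq0]; ring
  have hy8 : y ^ 8 = q := by
    rw [hy, ← Real.rpow_natCast, ← Real.rpow_mul hq0.le]
    norm_num
  have hy10 : 10 ^ 10 ≤ y := by
    by_contra hcon
    push Not at hcon
    have : y ^ 8 < (10 ^ 10) ^ 8 := pow_lt_pow_left₀ hcon hy0.le (by norm_num)
    rw [hy8] at this
    have e : ((10 : ℝ) ^ 10) ^ 8 = 10 ^ 80 := by norm_num
    linarith
  have h1 := log_sq_le (k := 8) (m := 10) hy10 (A := 185.88) (by norm_num) (by norm_num)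
  have h2 : (1 + Real.log q) ^ 2 ≤ 34552 / 10 ^ 10 * y := by
    rw [hlog]
    push_cast at h1
    refine h1.trans ?_
    have : (185.88 : ℝ) ^ 2 * (y / 10 ^ 10) = 34551.3744 / 10 ^ 10 * y := by norm_num; ring
    rw [this]
    apply mul_le_mul_of_nonneg_right _ hy0.le
    norm_num
  calc q ^ (7 / 8 : ℝ) * (1 + Real.log q) ^ 2 ≤ q ^ (7 / 8 : ℝ) * (34552 / 10 ^ 10 * y) := by
        gcongr
    _ = 34552 / 10 ^ 10 * (q ^ (7 / 8 : ℝ) * y) := by ring
    _ = _ := by rw [hyq]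

theorem keyW {q : ℝ} (hq : 10 ^ 36 ≤ q) :
    q ^ (3 / 4 : ℝ) * (1 + Real.log q) ^ 2 ≤ (7087 / 10 ^ 9) * q := by
  have hq0 : (0 : ℝ) < q := lt_of_lt_of_le (by positivity) hq
  obtain ⟨y, hy⟩ : ∃ y : ℝ, y = q ^ (1 / 4 : ℝ) := ⟨_, rfl⟩
  have hy0 : 0 < y := by rw [hy]; positivity
  have hyq : q ^ (3 / 4 : ℝ) * y = q := by
    rw [hy, ← Real.rpow_add hq0]
    norm_num
  have hlog : Real.log q = 4 * Real.log y := by
    rw [hy, Real.log_rpow hq0]; ring
  have hy8 : y ^ 4 = q := by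
    rw [hy, ← Real.rpow_natCast, ← Real.rpow_mul hq0.le]
    norm_num
  have hy10 : 10 ^ 9 ≤ y := by
    by_contra hcon
    push Not at hcon
    have : y ^ 4 < (10 ^ 9) ^ 4 := pow_lt_pow_left₀ hcon hy0.le (by norm_num)
    rw [hy8] at this
    have e : ((10 : ℝ) ^ 9) ^ 4 = 10 ^ 36 := by norm_num
    linarith
  have h1 := log_sq_le (k := 4) (m := 9) hy10 (A := 84.18) (by norm_num) (by norm_num)
  have h2 : (1 + Real.log q) ^ 2 ≤ 7087 / 10 ^ 9 * y := by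
    rw [hlog]
    push_cast at h1
    refine h1.trans ?_
    have : (84.18 : ℝ) ^ 2 * (y / 10 ^ 9) = 7086.2724 / 10 ^ 9 * y := by norm_num; ring
    rw [this]
    apply mul_le_mul_of_nonneg_right _ hy0.le
    norm_num
  calc q ^ (3 / 4 : ℝ) * (1 + Real.log q) ^ 2 ≤ q ^ (3 / 4 : ℝ) * (7087 / 10 ^ 9 * y) := by
        gcongr
    _ = 7087 / 10 ^ 9 * (q ^ (3 / 4 : ℝ) * y) := by ring
    _ = _ := by rw [hyq]

theorem asyG {q : ℝ} (hq : 10 ^ 80 ≤ q) :
    B1 q * (1 + Real.log q) ^ 2 + 1 ≤ (1 / 20000) * (q - 3) ∧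
    1024 * (mB q * (1 + Real.log q) ^ 2) ≤ q - 2 := by
  have hq1 : (1 : ℝ) ≤ q := le_trans (by norm_num) hq
  have hqbig : (10 : ℝ) ^ 20 ≤ q := le_trans (by norm_num) hq
  have h1 := keyG hq
  have h2 := B1_le hq1
  have h3 := (mB_le hq1).trans (mul_le_mul_of_nonneg_left (rpow_34_78 hq1) (by norm_num))
  have h4 : (0 : ℝ) ≤ (1 + Real.log q) ^ 2 := by positivity
  have h5 : B1 q * (1 + Real.log q) ^ 2 ≤ 3 * (q ^ (7 / 8 : ℝ) * (1 + Real.log q) ^ 2) := by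
    rw [← mul_assoc]
    exact mul_le_mul_of_nonneg_right h2 h4
  have h6 : mB q * (1 + Real.log q) ^ 2 ≤ 3 * (q ^ (7 / 8 : ℝ) * (1 + Real.log q) ^ 2) := by
    rw [← mul_assoc]
    exact mul_le_mul_of_nonneg_right h3 h4
  norm_num at hqbig h1
  constructor <;> linarith

theorem asyW {q : ℝ} (hq : 10 ^ 36 ≤ q) :
    (mB q + BK q) * (1 + Real.log q) ^ 2 + 1 ≤ (1 / 20000) * (q - 2) := by
  have hq1 : (1 : ℝ) ≤ q := le_trans (by norm_num) hq
  have hqbig : (10 : ℝ) ^ 20 ≤ q := le_trans (by norm_num) hq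
  have h1 := keyW hq
  have h2 := mB_le hq1
  have h3 := BK_le hq1
  have h4 : (0 : ℝ) ≤ (1 + Real.log q) ^ 2 := by positivity
  have h5 : (mB q + BK q) * (1 + Real.log q) ^ 2 ≤
      6 * (q ^ (3 / 4 : ℝ) * (1 + Real.log q) ^ 2) := by
    rw [← mul_assoc]
    exact mul_le_mul_of_nonneg_right (by linarith) h4
  norm_num at hqbig h1
  linarith

end Pool.Agent.Y799.CO
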