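import Mathlib
import Pool.Agent.Helper916.Golomb2

/-!
# Counting versions of the existence lemmas of `Pool.Agent.Helper916`
-/

set_option autoImplicit false

open Finset

namespace Pool.Agent.Y799.CO

open Pool.Agent.Helper916

theorem l2_count {ι : Type*} {Ω : Finset ι} {ε : ℝ} {u v w u' v' w' : ι → ℝ} {μ μ' : ℝ}
    (hne : 0 < Ω.card) (hε0 : 0 ≤ ε) (hε : ε ≤ 1 / 20000)
    (h : Mom Ω ε u v w) (h' : Mom Ω ε u' v' w')
    (hμ : |μ| ≤ 1 / 2 + ε) (hμ' : |μ'| ≤ 1 / 2 + ε)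
    (hD : ∀ ω ∈ Ω, u ω + v ω - w ω + μ = -1 ∨ u ω + v ω - w ω + μ = 0 ∨
      u ω + v ω - w ω + μ = 1)
    (hD' : ∀ ω ∈ Ω, u' ω + v' ω - w' ω + μ' = -1 ∨ u' ω + v' ω - w' ω + μ' = 0 ∨
      u' ω + v' ω - w' ω + μ' = 1)
    (hu : ∀ ω ∈ Ω, |u ω| ≤ 1 / 2) (hv : ∀ ω ∈ Ω, |v ω| ≤ 1 / 2) (hw : ∀ ω ∈ Ω, |w ω| ≤ 1 / 2)
    (hu' : ∀ ω ∈ Ω, |u' ω| ≤ 1 / 2) (hv' : ∀ ω ∈ Ω, |v' ω| ≤ 1 / 2)
    (hw' : ∀ ω ∈ Ω, |w' ω| ≤ 1 / 2)
    (huu : |∑ ω ∈ Ω, u ω * u' ω| ≤ ε * Ω.card) (huv : |∑ ω ∈ Ω, u ω * v' ω| ≤ ε * Ω.card)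
    (hvu : |∑ ω ∈ Ω, v ω * u' ω| ≤ ε * Ω.card) (hvv : |∑ ω ∈ Ω, v ω * v' ω| ≤ ε * Ω.card)
    [DecidablePred fun ω => u ω + v ω - w ω + μ = 0 ∧ u' ω + v' ω - w' ω + μ' = 0] :
    (Ω.card : ℝ) ≤ 40000 * ((Ω.filter fun ω =>
      u ω + v ω - w ω + μ = 0 ∧ u' ω + v' ω - w' ω + μ' = 0).card : ℝ) := by
  classical
  by_contra hcon
  push Not at hcon
  set Z : Finset ι := Ω.filter fun ω =>
      u ω + v ω - w ω + μ = 0 ∧ u' ω + v' ω - w' ω + μ' = 0 with hZ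
  set Ω' : Finset ι := Ω.filter fun ω =>
      ¬ (u ω + v ω - w ω + μ = 0 ∧ u' ω + v' ω - w' ω + μ' = 0) with hΩ'
  have hcard : Z.card + Ω'.card = Ω.card := Finset.card_filter_add_card_filter_not _
  have hcardR : (Z.card : ℝ) + Ω'.card = Ω.card := by exact_mod_cast hcard
  have hnpos : (0 : ℝ) < Ω.card := by exact_mod_cast hne
  have hz0 : (0 : ℝ) ≤ Z.card := Nat.cast_nonneg _
  have hsub : ∀ ω ∈ Ω', ω ∈ Ω := fun ω hω => (Finset.mem_filter.1 hω).1
  have hsubZ : ∀ ω ∈ Z, ω ∈ Ω := fun ω hω => (Finset.mem_filter.1 hω).1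
  have hΩ'pos : 0 < Ω'.card := by
    have : (0 : ℝ) < Ω'.card := by linarith
    exact_mod_cast this
  have hsplit : ∀ f : ι → ℝ, ∑ ω ∈ Z, f ω + ∑ ω ∈ Ω', f ω = ∑ ω ∈ Ω, f ω := fun f =>
    Finset.sum_filter_add_sum_filter_not _ _ _
  have tr : ∀ f : ι → ℝ, (∀ ω ∈ Ω, |f ω| ≤ 1 / 2) → |∑ ω ∈ Ω, f ω| ≤ ε * Ω.card →
      |∑ ω ∈ Ω', f ω| ≤ 1 / 10000 * Ω'.card := by
    intro f hf hs
    have h1 : |∑ ω ∈ Z, f ω| ≤ Z.card * (1 / 2) := by
      refine (Finset.abs_sum_le_sum_abs _ _).trans ?_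
      refine (Finset.sum_le_sum fun ω hω => hf ω (hsubZ ω hω)).trans ?_
      rw [Finset.sum_const, nsmul_eq_mul]
    have h2 : ∑ ω ∈ Ω', f ω = ∑ ω ∈ Ω, f ω - ∑ ω ∈ Z, f ω := by linarith [hsplit f]
    rw [h2]
    refine (abs_sub _ _).trans ?_
    have h3 : ε * Ω.card ≤ 1 / 20000 * Ω.card := mul_le_mul_of_nonneg_right hε hnpos.le
    linarith
  have tr2 : ∀ f : ι → ℝ, (∀ ω ∈ Ω, |f ω| ≤ 1 / 2) →
      |∑ ω ∈ Ω, f ω ^ 2 - (1 / 12) * Ω.card| ≤ ε * Ω.card →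
      |∑ ω ∈ Ω', f ω ^ 2 - (1 / 12) * Ω'.card| ≤ 1 / 10000 * Ω'.card := by
    intro f hf hs
    have e : ∀ T : Finset ι, ∑ ω ∈ T, (f ω ^ 2 - 1 / 12) = ∑ ω ∈ T, f ω ^ 2 - (1 / 12) * T.card := by
      intro T
      rw [Finset.sum_sub_distrib, Finset.sum_const, nsmul_eq_mul]
      ring
    rw [← e] at hs ⊢
    refine tr _ (fun ω hω => ?_) hs
    have h1 : f ω ^ 2 ≤ (1 / 2) ^ 2 := by
      rw [← sq_abs]
      exact pow_le_pow_left₀ (abs_nonneg _) (hf ω hω) 2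
    have h2 := sq_nonneg (f ω)
    rw [abs_le]
    constructor <;> linarith
  have trp : ∀ f g : ι → ℝ, (∀ ω ∈ Ω, |f ω| ≤ 1 / 2) → (∀ ω ∈ Ω, |g ω| ≤ 1 / 2) →
      |∑ ω ∈ Ω, f ω * g ω| ≤ ε * Ω.card → |∑ ω ∈ Ω', f ω * g ω| ≤ 1 / 10000 * Ω'.card := by
    intro f g hf hg hs
    refine tr _ (fun ω hω => ?_) hs
    rw [abs_mul]
    calc |f ω| * |g ω| ≤ 1 / 2 * (1 / 2) :=
          mul_le_mul (hf ω hω) (hg ω hω) (abs_nonneg _) (by norm_num)
      _ ≤ 1 / 2 := by norm_num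
  obtain ⟨ω, hω, h1, h2⟩ := l2_lemma (Ω := Ω') (ε := 1 / 10000) (u := u) (v := v) (w := w)
    (u' := u') (v' := v') (w' := w') (μ := μ) (μ' := μ') hΩ'pos (by norm_num) le_rfl
    ⟨tr u hu h.u1, tr v hv h.v1, tr w hw h.w1, tr2 u hu h.u2, tr2 v hv h.v2, tr2 w hw h.w2,
      trp u v hu hv h.uv, trp u w hu hw h.uw, trp v w hv hw h.vw⟩
    ⟨tr u' hu' h'.u1, tr v' hv' h'.v1, tr w' hw' h'.w1, tr2 u' hu' h'.u2, tr2 v' hv' h'.v2,
      tr2 w' hw' h'.w2, trp u' v' hu' hv' h'.uv, trp u' w' hu' hw' h'.uw, trp v' w' hv' hw' h'.vw⟩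
    (by linarith) (by linarith) (fun ω hω => hD ω (hsub ω hω)) (fun ω hω => hD' ω (hsub ω hω))
    (fun ω hω => hu' ω (hsub ω hω)) (fun ω hω => hv' ω (hsub ω hω))
    (trp u u' hu hu' huu) (trp u v' hu hv' huv) (trp v u' hv hu' hvu) (trp v v' hv hv' hvv)
  exact (Finset.mem_filter.1 hω).2 ⟨h1, h2⟩

section

variable {F : Type*} [Field F] [Fintype F] [DecidableEq F] {N : ℕ} [NeZero N]

theorem golomb_odd_count (hN : Fintype.card F = N + 1) (h2 : (2 : F) ≠ 0) {α β : F}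
    (hα : orderOf α = N) (hβ : orderOf β = N) {t1 t2 : ℕ} (ht1 : t1 ≤ N + 1) (ht2 : t2 ≤ N + 1)
    {ε : ℝ} (hε0 : 0 ≤ ε) (hε : ε ≤ 1 / 20000)
    (hbig : B1 (Fintype.card F) * (1 + Real.log N) ^ 2 + 1 ≤ ε * ((Fintype.card F : ℝ) - 3))
    (hNε : 1 / (2 * (N : ℝ)) ≤ ε) :
    ((Om F).card : ℝ) ≤ 40000 * (((Om F).filter fun s =>
      rep t1 (dl N α ((1 + s)⁻¹)) + rep t1 (dl N α ((1 - s)⁻¹))
        = rep t1 (dl N α ((1 + s)⁻¹ * (1 - s)⁻¹)) ∧
      rep t2 (dl N β (s * (1 + s)⁻¹)) + rep t2 (dl N β (s * (s - 1)⁻¹))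
        = rep t2 (dl N β ((s * (1 + s)⁻¹) * (s * (s - 1)⁻¹)))).card : ℝ) := by
  have hNpos : (0 : ℝ) < N := by exact_mod_cast NeZero.pos N
  have hN1 : (1 : ℝ) ≤ N := by exact_mod_cast NeZero.pos N
  have hB0 : 0 ≤ B1 (Fintype.card F) := Real.sqrt_nonneg _
  have hq : (Fintype.card F : ℝ) = N + 1 := by rw [hN]; push_cast; ring
  have hcard := Om_card_ge (F := F)
  have hcard' := Om_card_le (F := F)
  have hεcard : B1 (Fintype.card F) * (1 + Real.log N) ^ 2 +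
      ((Om F).card : ℝ) / (12 * (N : ℝ) ^ 2) ≤ ε * (Om F).card := by
    have e1 : ((Om F).card : ℝ) / (12 * (N : ℝ) ^ 2) ≤ 1 := by
      rw [div_le_one (by positivity)]
      nlinarith
    have e2 : ε * ((Fintype.card F : ℝ) - 3) ≤ ε * (Om F).card :=
      mul_le_mul_of_nonneg_left hcard hε0
    linarith
  have hlogB : B1 (Fintype.card F) * ((1 + Real.log N) * (1 + Real.log N)) ≤ ε * (Om F).card := by
    have e1 : 0 ≤ ((Om F).card : ℝ) / (12 * (N : ℝ) ^ 2) := by positivity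
    have e2 : B1 (Fintype.card F) * ((1 + Real.log N) * (1 + Real.log N))
        = B1 (Fintype.card F) * (1 + Real.log N) ^ 2 := by ring
    linarith
  have hpos : 0 < (Om F).card := by
    have e1 : 0 ≤ B1 (Fintype.card F) * (1 + Real.log N) ^ 2 := by positivity
    have e2 : (0 : ℝ) < ε * (Om F).card := by
      have := mul_le_mul_of_nonneg_left hcard hε0
      linarith
    have e3 : (0 : ℝ) < (Om F).card := by
      by_contra hcon
      push Not at hcon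
      nlinarith
    exact_mod_cast e3
  -- nonvanishing of the variables
  have nx : ∀ s ∈ Om F, (1 + s)⁻¹ ≠ 0 := fun s hs => inv_ne_zero (Om_facts hs).2.2.2.1
  have ny : ∀ s ∈ Om F, (1 - s)⁻¹ ≠ 0 := fun s hs => inv_ne_zero (Om_facts hs).2.2.2.2
  have nx' : ∀ s ∈ Om F, s * (1 + s)⁻¹ ≠ 0 := fun s hs => mul_ne_zero (Om_facts hs).1 (nx s hs)
  have ny' : ∀ s ∈ Om F, s * (s - 1)⁻¹ ≠ 0 := fun s hs =>
    mul_ne_zero (Om_facts hs).1 (inv_ne_zero (Om_facts hs).2.2.1)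
  have nz : ∀ s ∈ Om F, (1 + s)⁻¹ * (1 - s)⁻¹ ≠ 0 := fun s hs => mul_ne_zero (nx s hs) (ny s hs)
  have nz' : ∀ s ∈ Om F, (s * (1 + s)⁻¹) * (s * (s - 1)⁻¹) ≠ 0 :=
    fun s hs => mul_ne_zero (nx' s hs) (ny' s hs)
  -- generic transfer
  have tr1 : ∀ (γ : F) (hγ : orderOf γ = N) (X : F → F), (∀ s ∈ Om F, X s ≠ 0) → ∀ h : ZMod N,
      ∑ s ∈ Om F, (ZMod.stdAddChar (h * dl N γ (X s)) : ℂ) = ∑ s ∈ Om F, chi hN hγ h (X s) := by
    intro γ hγ X hX h
    exact Finset.sum_congr rfl fun s hs => (chi_apply hN hγ h (hX s hs)).symm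
  have tr2 : ∀ (γ δ : F) (hγ : orderOf γ = N) (hδ : orderOf δ = N) (X Y : F → F),
      (∀ s ∈ Om F, X s ≠ 0) → (∀ s ∈ Om F, Y s ≠ 0) → ∀ h k : ZMod N,
      ∑ s ∈ Om F, (ZMod.stdAddChar (h * dl N γ (X s)) : ℂ) * ZMod.stdAddChar (k * dl N δ (Y s))
        = ∑ s ∈ Om F, chi hN hγ h (X s) * chi hN hδ k (Y s) := by
    intro γ δ hγ hδ X Y hX hY h k
    refine Finset.sum_congr rfl fun s hs => ?_
    rw [chi_apply hN hγ h (hX s hs), chi_apply hN hδ k (hY s hs)]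
  have inv_ne : ∀ χ : MulChar F ℂ, χ ≠ 1 → χ⁻¹ ≠ 1 := fun χ h h' => h (inv_eq_one.mp h')
  have hM : Mom (Om F) ε (fun s => saw (dl N α ((1 + s)⁻¹) + ((t1 : ZMod N) - 1)))
      (fun s => saw (dl N α ((1 - s)⁻¹) + ((t1 : ZMod N) - 1)))
      (fun s => saw (dl N α ((1 + s)⁻¹ * (1 - s)⁻¹) + ((t1 : ZMod N) - 1))) := by
    refine mom_of (Om F) _ _ _ _ (B1 (Fintype.card F)) ε hB0 ?_ ?_ ?_ ?_ ?_ ?_ hεcard
    · intro h hh
      rw [tr1 α hα _ nx h]
      exact (rep_x _).bound h2 (Or.inr (Or.inl (inv_ne _ (chi_ne_one hN hα hh))))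
    · intro h hh
      rw [tr1 α hα _ ny h]
      exact (rep_y _).bound h2 (Or.inr (Or.inr (inv_ne _ (chi_ne_one hN hα hh))))
    · intro h hh
      rw [tr1 α hα _ nz h]
      exact (rep_z _).bound h2 (Or.inr (Or.inl (inv_ne _ (chi_ne_one hN hα hh))))
    · intro h k hh hk
      rw [tr2 α α hα hα _ _ nx ny h k]
      refine ((rep_x _).mul (rep_y _)).bound h2 (Or.inr (Or.inl ?_))
      rw [mul_one]; exact inv_ne _ (chi_ne_one hN hα hh)
    · intro h k hh hk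
      rw [tr2 α α hα hα _ _ nx nz h k]
      refine ((rep_x _).mul (rep_z _)).bound h2 (Or.inr (Or.inr ?_))
      rw [one_mul]; exact inv_ne _ (chi_ne_one hN hα hk)
    · intro h k hh hk
      rw [tr2 α α hα hα _ _ ny nz h k]
      refine ((rep_y _).mul (rep_z _)).bound h2 (Or.inr (Or.inl ?_))
      rw [one_mul]; exact inv_ne _ (chi_ne_one hN hα hk)
  have hM' : Mom (Om F) ε (fun s => saw (dl N β (s * (1 + s)⁻¹) + ((t2 : ZMod N) - 1)))
      (fun s => saw (dl N β (s * (s - 1)⁻¹) + ((t2 : ZMod N) - 1)))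
      (fun s => saw (dl N β ((s * (1 + s)⁻¹) * (s * (s - 1)⁻¹)) + ((t2 : ZMod N) - 1))) := by
    refine mom_of (Om F) _ _ _ _ (B1 (Fintype.card F)) ε hB0 ?_ ?_ ?_ ?_ ?_ ?_ hεcard
    · intro h hh
      rw [tr1 β hβ _ nx' h]
      exact (rep_x' _).bound h2 (Or.inl (chi_ne_one hN hβ hh))
    · intro h hh
      rw [tr1 β hβ _ ny' h]
      exact (rep_y' _).bound h2 (Or.inl (chi_ne_one hN hβ hh))
    · intro h hh
      rw [tr1 β hβ _ nz' h]
      exact (rep_z' _).bound h2 (Or.inr (Or.inl (inv_ne _ (chi_ne_one hN hβ hh))))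
    · intro h k hh hk
      rw [tr2 β β hβ hβ _ _ nx' ny' h k]
      refine ((rep_x' _).mul (rep_y' _)).bound h2 (Or.inr (Or.inl ?_))
      rw [mul_one]; exact inv_ne _ (chi_ne_one hN hβ hh)
    · intro h k hh hk
      rw [tr2 β β hβ hβ _ _ nx' nz' h k]
      refine ((rep_x' _).mul (rep_z' _)).bound h2 (Or.inr (Or.inr ?_))
      rw [one_mul]; exact inv_ne _ (chi_ne_one hN hβ hk)
    · intro h k hh hk
      rw [tr2 β β hβ hβ _ _ ny' nz' h k]
      refine ((rep_y' _).mul (rep_z' _)).bound h2 (Or.inr (Or.inl ?_))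
      rw [one_mul]; exact inv_ne _ (chi_ne_one hN hβ hk)
  have hmu : ∀ t : ℕ, t ≤ N + 1 → |muu N t| ≤ 1 / 2 + ε := fun t ht => by
    have := muu_le (N := N) t ht
    linarith
  refine (l2_count (μ := muu N t1) (μ' := muu N t2) hpos hε0 hε hM hM'
    (hmu t1 ht1) (hmu t2 ht2)
    (fun s hs => D_real_values t1 ht1 _ _ _ (dl_mul hN hα (nx s hs) (ny s hs)).symm)
    (fun s hs => D_real_values t2 ht2 _ _ _ (dl_mul hN hβ (nx' s hs) (ny' s hs)).symm)
    (fun s _ => saw_abs_le _) (fun s _ => saw_abs_le _) (fun s _ => saw_abs_le _)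
    (fun s _ => saw_abs_le _) (fun s _ => saw_abs_le _) (fun s _ => saw_abs_le _)
    ((cov_two (Om F) _ _ _ _ _ hB0 (fun h k hh hk => by
      rw [tr2 α β hα hβ _ _ nx nx' h k]
      refine ((rep_x _).mul (rep_x' _)).bound h2 (Or.inl ?_)
      rw [one_mul]; exact chi_ne_one hN hβ hk)).trans hlogB)
    ((cov_two (Om F) _ _ _ _ _ hB0 (fun h k hh hk => by
      rw [tr2 α β hα hβ _ _ nx ny' h k]
      refine ((rep_x _).mul (rep_y' _)).bound h2 (Or.inr (Or.inl ?_))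
      rw [mul_one]; exact inv_ne _ (chi_ne_one hN hα hh))).trans hlogB)
    ((cov_two (Om F) _ _ _ _ _ hB0 (fun h k hh hk => by
      rw [tr2 α β hα hβ _ _ ny nx' h k]
      refine ((rep_y _).mul (rep_x' _)).bound h2 (Or.inr (Or.inr ?_))
      rw [mul_one]; exact inv_ne _ (chi_ne_one hN hα hh))).trans hlogB)
    ((cov_two (Om F) _ _ _ _ _ hB0 (fun h k hh hk => by
      rw [tr2 α β hα hβ _ _ ny ny' h k]
      refine ((rep_y _).mul (rep_y' _)).bound h2 (Or.inl ?_)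
      rw [one_mul]; exact chi_ne_one hN hβ hk)).trans hlogB)).trans ?_
  have hsub := Finset.card_le_card (Finset.monotone_filter_right (Om F) (p := fun s =>
      saw (dl N α ((1 + s)⁻¹) + ((t1 : ZMod N) - 1)) + saw (dl N α ((1 - s)⁻¹) + ((t1 : ZMod N) - 1)) -
        saw (dl N α ((1 + s)⁻¹ * (1 - s)⁻¹) + ((t1 : ZMod N) - 1)) + muu N t1 = 0 ∧
      saw (dl N β (s * (1 + s)⁻¹) + ((t2 : ZMod N) - 1)) +
        saw (dl N β (s * (s - 1)⁻¹) + ((t2 : ZMod N) - 1)) -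
        saw (dl N β ((s * (1 + s)⁻¹) * (s * (s - 1)⁻¹)) + ((t2 : ZMod N) - 1)) + muu N t2 = 0)
      (q := fun s =>
      rep t1 (dl N α ((1 + s)⁻¹)) + rep t1 (dl N α ((1 - s)⁻¹))
        = rep t1 (dl N α ((1 + s)⁻¹ * (1 - s)⁻¹)) ∧
      rep t2 (dl N β (s * (1 + s)⁻¹)) + rep t2 (dl N β (s * (s - 1)⁻¹))
        = rep t2 (dl N β ((s * (1 + s)⁻¹) * (s * (s - 1)⁻¹))))
      (fun s _ hs => ⟨D_zero t1 _ _ _ hs.1, D_zero t2 _ _ _ hs.2⟩))
  have hsub' := (Nat.cast_le (α := ℝ)).2 hsub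
  exact mul_le_mul_of_nonneg_left hsub' (by norm_num)

theorem golomb_even_count (hN : Fintype.card F = N + 1) (h2 : (2 : F) = 0) {α β : F}
    (hα : orderOf α = N) (hβ : orderOf β = N) {t1 t2 : ℕ} (h11 : 1 ≤ t1) (ht1 : t1 ≤ N)
    (h12 : 1 ≤ t2) (ht2 : t2 ≤ N)
    (hbig : 1024 * (mB (Fintype.card F) * (1 + Real.log N) ^ 2) ≤ ((Fintype.card F : ℝ) - 2))
    (hN8 : 8 ≤ N) :
    ((Fintype.card F : ℝ) - 2) ≤ 512 * (((Ow F).filter fun x =>
      (1 - (t1 : ℤ) ≤ 2 * rep t1 (dl N α x) ∧ 2 * rep t1 (dl N α x) ≤ N - (t1 : ℤ)) ∧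
      (1 - (t2 : ℤ) ≤ 2 * rep t2 (dl N β (1 - x)) ∧
        2 * rep t2 (dl N β (1 - x)) ≤ N - (t2 : ℤ))).card : ℝ) := by
  have hNpos : (0 : ℝ) < N := by exact_mod_cast NeZero.pos N
  set K : ℕ := (N - 1) / 4 with hK
  have hK4 : 4 * K ≤ N - 1 := by omega
  have hK1 : 1 ≤ K := by omega
  have hKN : K ≤ N := by omega
  have hK8 : (1 : ℝ) / 8 ≤ (K : ℝ) / N := by
    rw [div_le_div_iff₀ (by norm_num) hNpos]
    have : N ≤ 8 * K := by omega
    have : (N : ℝ) ≤ 8 * K := by exact_mod_cast this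
    linarith
  have hKle1 : (K : ℝ) / N ≤ 1 := by
    rw [div_le_one hNpos]; exact_mod_cast hKN
  have hone : (1 : F) + 1 = 0 := by rw [← h2]; norm_num
  have hneg : (-1 : F) = 1 := neg_eq_of_add_eq_zero_left hone
  set B := mB (Fintype.card F) with hB
  have hB0 : 0 ≤ B := Real.sqrt_nonneg _
  have hlog : 1 ≤ 1 + Real.log N := by
    have := Real.log_natCast_nonneg N; linarith
  have hmem : ∀ x ∈ Ow F, x ≠ 0 ∧ x + 1 ≠ 0 := fun x hx => Ow_facts hx
  have h1x : ∀ x : F, 1 - x = x + 1 := fun x => by linear_combination (-x) * hone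
  -- sums
  have s1 : ∀ h : ZMod N, h ≠ 0 → ‖∑ x ∈ Ow F, (ZMod.stdAddChar (h * dl N α x) : ℂ)‖ ≤ B := by
    intro h hh
    have e1 : ∑ x ∈ Ow F, (ZMod.stdAddChar (h * dl N α x) : ℂ)
        = ∑ x ∈ Ow F, (fun x => chi hN hα h x) x :=
      Finset.sum_congr rfl fun s hs => (chi_apply hN hα h (hmem s hs).1).symm
    rw [e1]
    have hr : Rep2 (fun x => chi hN hα h x) (chi hN hα h) 1 := by
      refine ⟨1, by simp, ?_⟩
      intro s hs
      rw [one_app (hmem s hs).2]; ring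
    exact hr.bound (Or.inl (chi_ne_one hN hα hh))
  have s2 : ∀ h : ZMod N, h ≠ 0 → ‖∑ x ∈ Ow F, (ZMod.stdAddChar (h * dl N β (1 - x)) : ℂ)‖ ≤ B := by
    intro h hh
    have e1 : ∑ x ∈ Ow F, (ZMod.stdAddChar (h * dl N β (1 - x)) : ℂ)
        = ∑ x ∈ Ow F, (fun x => chi hN hβ h (x + 1)) x := by
      refine Finset.sum_congr rfl fun s hs => ?_
      rw [h1x]
      exact (chi_apply hN hβ h (hmem s hs).2).symm
    rw [e1]
    have hr : Rep2 (fun x => chi hN hβ h (x + 1)) 1 (chi hN hβ h) := by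
      refine ⟨1, by simp, ?_⟩
      intro s hs
      rw [one_app (hmem s hs).1]; ring
    exact hr.bound (Or.inr (chi_ne_one hN hβ hh))
  have s3 : ∀ h k : ZMod N, h ≠ 0 → k ≠ 0 → ‖∑ x ∈ Ow F, (ZMod.stdAddChar (h * dl N α x) : ℂ) *
      ZMod.stdAddChar (k * dl N β (1 - x))‖ ≤ B := by
    intro h k hh hk
    have e1 : ∑ x ∈ Ow F, (ZMod.stdAddChar (h * dl N α x) : ℂ) *
        ZMod.stdAddChar (k * dl N β (1 - x))
        = ∑ x ∈ Ow F, (fun x => chi hN hα h x * chi hN hβ k (x + 1)) x := by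
      refine Finset.sum_congr rfl fun s hs => ?_
      rw [h1x]
      beta_reduce
      rw [chi_apply hN hβ k (hmem s hs).2, chi_apply hN hα h (hmem s hs).1]
    rw [e1]
    have hr : Rep2 (fun x => chi hN hα h x * chi hN hβ k (x + 1)) (chi hN hα h) (chi hN hβ k) := by
      refine ⟨1, by simp, ?_⟩
      intro s hs
      ring
    exact hr.bound (Or.inl (chi_ne_one hN hα hh))
  -- the indicator functions
  set a : F → ZMod N := fun x => dl N α x with ha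
  set b : F → ZMod N := fun x => dl N β (1 - x) with hb
  set c1 : ZMod N := -cst N K t1 with hc1
  set c2 : ZMod N := -cst N K t2 with hc2
  set d1 : F → ℝ := fun x => saw (a x + c1) - saw (a x + (c1 - (K : ZMod N))) with hd1
  set d2 : F → ℝ := fun x => saw (b x + c2) - saw (b x + (c2 - (K : ZMod N))) with hd2
  set κ : ℝ := (K : ℝ) / N with hκ
  set Z : Finset F := (Ow F).filter fun x =>
      (1 - (t1 : ℤ) ≤ 2 * rep t1 (dl N α x) ∧ 2 * rep t1 (dl N α x) ≤ N - (t1 : ℤ)) ∧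
      (1 - (t2 : ℤ) ≤ 2 * rep t2 (dl N β (1 - x)) ∧
        2 * rep t2 (dl N β (1 - x)) ≤ N - (t2 : ℤ)) with hZ
  -- pointwise: one of the two factors vanishes, i.e. is equal to zero
  have hval : ∀ y : ZMod N, κ - (saw y - saw (y - (K : ZMod N))) = 0 ∨ y.val < K := by
    intro y
    by_cases hy : y.val < K
    · exact Or.inr hy
    · left
      by_contra hne
      rcases lt_or_gt_of_ne hne with h | h
      · -- difference larger than κ impossible
        have h1 : (y - (K : ZMod N)).val = y.val - K := by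
          push Not at hy
          have e1 : y = ((y.val : ℕ) : ZMod N) := by rw [ZMod.natCast_val, ZMod.cast_id', id]
          have e2 : y - (K : ZMod N) = ((y.val - K : ℕ) : ZMod N) := by
            rw [Nat.cast_sub hy, ← e1]
          rw [e2]
          apply ZMod.val_cast_of_lt
          have := ZMod.val_lt y
          omega
        have h2 : saw y - saw (y - (K : ZMod N)) = (K : ℝ) / N := by
          unfold saw
          push Not at hy
          rw [h1, Nat.cast_sub hy]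
          field_simp
          ring
        rw [h2] at h
        simp [hκ] at h
      · exact hy (saw_diff y hK1 hKN (by linarith))
  have hbd : ∀ y : ZMod N, |κ - (saw y - saw (y - (K : ZMod N)))| ≤ 2 := by
    intro y
    have e1 := abs_le.1 (saw_abs_le y)
    have e2 := abs_le.1 (saw_abs_le (y - (K : ZMod N)))
    have e3 : 0 ≤ κ := by positivity
    rw [abs_le]
    constructor <;> linarith [e1.1, e1.2, e2.1, e2.2]
  have hd1' : ∀ x, κ - d1 x = κ - (saw (a x + c1) - saw (a x + c1 - (K : ZMod N))) := by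
    intro x
    simp only [hd1]
    rw [add_sub_assoc]
  have hd2' : ∀ x, κ - d2 x = κ - (saw (b x + c2) - saw (b x + c2 - (K : ZMod N))) := by
    intro x
    simp only [hd2]
    rw [add_sub_assoc]
  have hzero : ∀ x ∈ Ow F, x ∉ Z → (κ - d1 x) * (κ - d2 x) = 0 := by
    intro x hx hxZ
    rcases hval (a x + c1) with h | h
    · rw [hd1' x, h, zero_mul]
    · rcases hval (b x + c2) with h' | h'
      · rw [hd2' x, h', mul_zero]
      · exfalso
        have w1 := window_ok hK4 h11 ht1 (a x) (by rw [hc1, ← sub_eq_add_neg] at h; exact h)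
        have w2 := window_ok hK4 h12 ht2 (b x) (by rw [hc2, ← sub_eq_add_neg] at h'; exact h')
        exact hxZ (Finset.mem_filter.2 ⟨hx, w1, w2⟩)
  have hsum : ∑ x ∈ Ow F, (κ - d1 x) * (κ - d2 x) ≤ 4 * Z.card := by
    have hZs : Z ⊆ Ow F := Finset.filter_subset _ _
    rw [← Finset.sum_subset hZs hzero]
    calc ∑ x ∈ Z, (κ - d1 x) * (κ - d2 x) ≤ ∑ x ∈ Z, (4 : ℝ) := by
          refine Finset.sum_le_sum fun x _ => ?_
          refine (le_abs_self _).trans ?_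
          rw [abs_mul, hd1' x, hd2' x]
          calc |κ - (saw (a x + c1) - saw (a x + c1 - (K : ZMod N)))| *
                |κ - (saw (b x + c2) - saw (b x + c2 - (K : ZMod N)))| ≤ 2 * 2 :=
                mul_le_mul (hbd _) (hbd _) (abs_nonneg _) (by norm_num)
            _ = 4 := by norm_num
      _ = 4 * Z.card := by rw [Finset.sum_const, nsmul_eq_mul]; ring
  have hexp : ∑ x ∈ Ow F, (κ - d1 x) * (κ - d2 x)
      = κ ^ 2 * (Ow F).card - κ * ∑ x ∈ Ow F, d1 x - κ * ∑ x ∈ Ow F, d2 x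
        + ∑ x ∈ Ow F, d1 x * d2 x := by
    have e : ∀ x ∈ Ow F, (κ - d1 x) * (κ - d2 x) = κ ^ 2 - κ * d1 x - κ * d2 x + d1 x * d2 x := by
      intro x _; ring
    rw [Finset.sum_congr rfl e, Finset.sum_add_distrib, Finset.sum_sub_distrib,
      Finset.sum_sub_distrib, Finset.sum_const, nsmul_eq_mul, ← Finset.mul_sum, ← Finset.mul_sum]
    ring
  set L := 1 + Real.log N with hL
  have hBL : B * L ≤ B * L ^ 2 := by
    apply mul_le_mul_of_nonneg_left _ hB0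
    nlinarith
  have hs1 : |∑ x ∈ Ow F, d1 x| ≤ 2 * (B * L ^ 2) := by
    simp only [hd1]
    rw [Finset.sum_sub_distrib]
    refine (abs_sub _ _).trans ?_
    have e1 := cov_one (Ow F) a c1 B hB0 s1
    have e2 := cov_one (Ow F) a (c1 - (K : ZMod N)) B hB0 s1
    linarith
  have hs2 : |∑ x ∈ Ow F, d2 x| ≤ 2 * (B * L ^ 2) := by
    simp only [hd2]
    rw [Finset.sum_sub_distrib]
    refine (abs_sub _ _).trans ?_
    have e1 := cov_one (Ow F) b c2 B hB0 s2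
    have e2 := cov_one (Ow F) b (c2 - (K : ZMod N)) B hB0 s2
    linarith
  have hs3 : |∑ x ∈ Ow F, d1 x * d2 x| ≤ 4 * (B * L ^ 2) := by
    have e : ∀ x ∈ Ow F, d1 x * d2 x = saw (a x + c1) * saw (b x + c2)
        - saw (a x + c1) * saw (b x + (c2 - (K : ZMod N))) - saw (a x + (c1 - (K : ZMod N))) * saw (b x + c2)
        + saw (a x + (c1 - (K : ZMod N))) * saw (b x + (c2 - (K : ZMod N))) := by
      intro x _; simp only [hd1, hd2]; ring
    rw [Finset.sum_congr rfl e, Finset.sum_add_distrib, Finset.sum_sub_distrib,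
      Finset.sum_sub_distrib]
    have e1 := abs_le.mp (cov_two (Ow F) a b c1 c2 B hB0 s3)
    have e2 := abs_le.mp (cov_two (Ow F) a b c1 (c2 - (K : ZMod N)) B hB0 s3)
    have e3 := abs_le.mp (cov_two (Ow F) a b (c1 - (K : ZMod N)) c2 B hB0 s3)
    have e4 := abs_le.mp (cov_two (Ow F) a b (c1 - (K : ZMod N)) (c2 - (K : ZMod N)) B hB0 s3)
    have e5 : B * ((1 + Real.log N) * (1 + Real.log N)) = B * L ^ 2 := by rw [hL]; ring
    rw [e5] at e1 e2 e3 e4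
    rw [abs_le]
    constructor <;> linarith [e1.1, e1.2, e2.1, e2.2, e3.1, e3.2, e4.1, e4.2]
  have hcard := Ow_card_ge (F := F)
  have hκ0 : 0 ≤ κ := by positivity
  have hBL0 : 0 ≤ B * L ^ 2 := by positivity
  have t1' : κ * ∑ x ∈ Ow F, d1 x ≤ 2 * (B * L ^ 2) := by
    calc κ * ∑ x ∈ Ow F, d1 x ≤ κ * (2 * (B * L ^ 2)) :=
          mul_le_mul_of_nonneg_left ((le_abs_self _).trans hs1) hκ0
      _ ≤ 1 * (2 * (B * L ^ 2)) := mul_le_mul_of_nonneg_right hKle1 (by positivity)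
      _ = _ := one_mul _
  have t2' : κ * ∑ x ∈ Ow F, d2 x ≤ 2 * (B * L ^ 2) := by
    calc κ * ∑ x ∈ Ow F, d2 x ≤ κ * (2 * (B * L ^ 2)) :=
          mul_le_mul_of_nonneg_left ((le_abs_self _).trans hs2) hκ0
      _ ≤ 1 * (2 * (B * L ^ 2)) := mul_le_mul_of_nonneg_right hKle1 (by positivity)
      _ = _ := one_mul _
  have t3' := (abs_le.mp hs3).1
  have t4 : (1 / 64) * ((Ow F).card : ℝ) ≤ κ ^ 2 * (Ow F).card := by
    apply mul_le_mul_of_nonneg_right _ (Nat.cast_nonneg _)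
    nlinarith
  rw [hexp] at hsum
  linarith

end

theorem welch_count {p N : ℕ} [hp : Fact p.Prime] [NeZero N] (hN : p = N + 1) {α A : ZMod p}
    (hα : orderOf α = N) (hA : A ≠ 0) {t : ℕ} (ht : t ≤ p + 1)
    {ε : ℝ} (hε0 : 0 ≤ ε) (hε : ε ≤ 1 / 20000)
    (hbig : (mB p + BK p) * (1 + Real.log p) ^ 2 + 1 ≤ ε * ((p : ℝ) - 2))
    (hNε : 1 / (2 * (N : ℝ)) ≤ ε) :
    ((Ow (ZMod p)).card : ℝ) ≤ 40000 * (((Ow (ZMod p)).filter fun z =>
      rep 0 (dl N α (α * (z + 1) ^ 2 * z⁻¹)) + rep 0 (dl N α (z * (z + 1)⁻¹))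
        = rep 0 (dl N α (α * (z + 1))) ∧
      rep t (A * α * (z + 1)) + rep t (A * α * (1 + z⁻¹)) =
        rep t (A * α * (z + 2 + z⁻¹))).card : ℝ) := by
  have : NeZero p := ⟨hp.out.ne_zero⟩
  have hcardF : Fintype.card (ZMod p) = N + 1 := by rw [ZMod.card, hN]
  have hcardF' : (Fintype.card (ZMod p) : ℝ) = p := by rw [ZMod.card]
  have hNpos : (0 : ℝ) < N := by exact_mod_cast NeZero.pos N
  have hN1 : (1 : ℝ) ≤ N := by exact_mod_cast NeZero.pos N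
  have hppos : (0 : ℝ) < p := by exact_mod_cast hp.out.pos
  have hpN : (p : ℝ) = N + 1 := by rw [hN]; push_cast; ring
  have hα0 : α ≠ 0 := by
    intro h0
    rw [h0, orderOf_zero] at hα
    exact NeZero.ne N hα.symm
  set c0 : ZMod p := A * α with hc0
  have hc00 : c0 ≠ 0 := mul_ne_zero hA hα0
  set B : ℝ := mB p + BK p with hB
  have hmB0 : 0 ≤ mB p := Real.sqrt_nonneg _
  have hBK0 : 0 ≤ BK p := by unfold BK; positivity
  have hB0 : 0 ≤ B := by positivity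
  have hmBB : mB (Fintype.card (ZMod p)) ≤ B := by rw [hcardF']; linarith
  have hBKB : BK (Fintype.card (ZMod p)) ≤ B := by rw [hcardF']; linarith
  have hcard := Ow_card_ge (F := ZMod p)
  have hcard' := Ow_card_le (F := ZMod p)
  rw [hcardF'] at hcard hcard'
  have hlogle : Real.log N ≤ Real.log p := Real.log_le_log hNpos (by linarith)
  have hlog0 : 0 ≤ Real.log N := Real.log_natCast_nonneg N
  have hlogp0 : 0 ≤ Real.log p := Real.log_natCast_nonneg p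
  have hmain : B * (1 + Real.log p) ^ 2 + 1 ≤ ε * (Ow (ZMod p)).card := by
    have e2 : ε * ((p : ℝ) - 2) ≤ ε * (Ow (ZMod p)).card :=
      mul_le_mul_of_nonneg_left hcard hε0
    linarith
  have hBlog : B * (1 + Real.log N) ^ 2 ≤ B * (1 + Real.log p) ^ 2 := by
    apply mul_le_mul_of_nonneg_left _ hB0
    apply pow_le_pow_left₀ (by linarith) (by linarith)
  have hεN : B * (1 + Real.log N) ^ 2 + ((Ow (ZMod p)).card : ℝ) / (12 * (N : ℝ) ^ 2)
      ≤ ε * (Ow (ZMod p)).card := by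
    have e1 : ((Ow (ZMod p)).card : ℝ) / (12 * (N : ℝ) ^ 2) ≤ 1 := by
      rw [div_le_one (by positivity)]
      nlinarith
    linarith
  have hεp : B * (1 + Real.log p) ^ 2 + ((Ow (ZMod p)).card : ℝ) / (12 * (p : ℝ) ^ 2)
      ≤ ε * (Ow (ZMod p)).card := by
    have e1 : ((Ow (ZMod p)).card : ℝ) / (12 * (p : ℝ) ^ 2) ≤ 1 := by
      rw [div_le_one (by positivity)]
      nlinarith
    linarith
  have hcross : B * ((1 + Real.log N) * (1 + Real.log p)) ≤ ε * (Ow (ZMod p)).card := by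
    have : B * ((1 + Real.log N) * (1 + Real.log p)) ≤ B * (1 + Real.log p) ^ 2 := by
      apply mul_le_mul_of_nonneg_left _ hB0
      nlinarith
    linarith
  have hpos : 0 < (Ow (ZMod p)).card := by
    have e1 : 0 ≤ B * (1 + Real.log p) ^ 2 := by positivity
    have e2 : (0 : ℝ) < ε * (Ow (ZMod p)).card := by linarith
    have e3 : (0 : ℝ) < (Ow (ZMod p)).card := by
      by_contra hcon
      push Not at hcon
      nlinarith
    exact_mod_cast e3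
  -- nonvanishing
  have nu : ∀ z ∈ Ow (ZMod p), α * (z + 1) ^ 2 * z⁻¹ ≠ 0 := fun z hz =>
    mul_ne_zero (mul_ne_zero hα0 (pow_ne_zero 2 (Ow_facts hz).2)) (inv_ne_zero (Ow_facts hz).1)
  have nv : ∀ z ∈ Ow (ZMod p), z * (z + 1)⁻¹ ≠ 0 := fun z hz =>
    mul_ne_zero (Ow_facts hz).1 (inv_ne_zero (Ow_facts hz).2)
  have nw : ∀ z ∈ Ow (ZMod p), α * (z + 1) ≠ 0 := fun z hz => mul_ne_zero hα0 (Ow_facts hz).2
  have tr1 : ∀ (X : ZMod p → ZMod p), (∀ s ∈ Ow (ZMod p), X s ≠ 0) → ∀ h : ZMod N,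
      ∑ s ∈ Ow (ZMod p), (ZMod.stdAddChar (h * dl N α (X s)) : ℂ)
        = ∑ s ∈ Ow (ZMod p), chi hcardF hα h (X s) := by
    intro X hX h
    exact Finset.sum_congr rfl fun s hs => (chi_apply hcardF hα h (hX s hs)).symm
  have tr2 : ∀ (X Y : ZMod p → ZMod p),
      (∀ s ∈ Ow (ZMod p), X s ≠ 0) → (∀ s ∈ Ow (ZMod p), Y s ≠ 0) → ∀ h k : ZMod N,
      ∑ s ∈ Ow (ZMod p), (ZMod.stdAddChar (h * dl N α (X s)) : ℂ) *
          ZMod.stdAddChar (k * dl N α (Y s))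
        = ∑ s ∈ Ow (ZMod p), chi hcardF hα h (X s) * chi hcardF hα k (Y s) := by
    intro X Y hX hY h k
    refine Finset.sum_congr rfl fun s hs => ?_
    rw [chi_apply hcardF hα h (hX s hs), chi_apply hcardF hα k (hY s hs)]
  have inv_ne : ∀ χ : MulChar (ZMod p) ℂ, χ ≠ 1 → χ⁻¹ ≠ 1 := fun χ h h' => h (inv_eq_one.mp h')
  -- positions
  have hM : Mom (Ow (ZMod p)) ε
      (fun z => saw (dl N α (α * (z + 1) ^ 2 * z⁻¹) + (((0 : ℕ) : ZMod N) - 1)))
      (fun z => saw (dl N α (z * (z + 1)⁻¹) + (((0 : ℕ) : ZMod N) - 1)))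
      (fun z => saw (dl N α (α * (z + 1)) + (((0 : ℕ) : ZMod N) - 1))) := by
    refine mom_of (Ow (ZMod p)) _ _ _ _ B ε hB0 ?_ ?_ ?_ ?_ ?_ ?_ hεN
    · intro h hh
      rw [tr1 _ nu h]
      exact ((rep_u _ _).bound (Or.inl (inv_ne _ (chi_ne_one hcardF hα hh)))).trans hmBB
    · intro h hh
      rw [tr1 _ nv h]
      exact ((rep_v _).bound (Or.inl (chi_ne_one hcardF hα hh))).trans hmBB
    · intro h hh
      rw [tr1 _ nw h]
      exact ((rep_w _ _).bound (Or.inr (chi_ne_one hcardF hα hh))).trans hmBB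
    · intro h k hh hk
      rw [tr2 _ _ nu nv h k]
      refine (((rep_u _ _).mul (rep_v _)).bound ?_).trans hmBB
      by_contra hcon
      push Not at hcon
      obtain ⟨h1, h2⟩ := hcon
      apply chi_ne_one hcardF hα hh
      have e1 : chi hcardF hα k = chi hcardF hα h := by
        rw [inv_mul_eq_one] at h1; exact h1.symm
      rw [e1, mul_assoc, mul_inv_cancel, mul_one] at h2
      exact h2
    · intro h k hh hk
      rw [tr2 _ _ nu nw h k]
      refine (((rep_u _ _).mul (rep_w _ _)).bound (Or.inl ?_)).trans hmBB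
      rw [mul_one]; exact inv_ne _ (chi_ne_one hcardF hα hh)
    · intro h k hh hk
      rw [tr2 _ _ nv nw h k]
      refine (((rep_v _).mul (rep_w _ _)).bound (Or.inl ?_)).trans hmBB
      rw [mul_one]; exact chi_ne_one hcardF hα hh
  -- values
  have hψ := ZMod.isPrimitive_stdAddChar p
  have av : ∀ (b c d : ZMod p) (φ : ZMod p → ℂ), (b ≠ 0 ∨ c ≠ 0) →
      (∀ z, φ z = ZMod.stdAddChar (b * z + c * z⁻¹ + d)) → ‖∑ z ∈ Ow (ZMod p), φ z‖ ≤ B := by
    intro b c d φ hbc hφ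
    rw [Finset.sum_congr rfl fun z _ => hφ z]
    exact (add_sum_bound _ hψ d hbc).trans hBKB
  have hM' : Mom (Ow (ZMod p)) ε
      (fun z => saw (c0 * (z + 1) + ((t : ZMod p) - 1)))
      (fun z => saw (c0 * (1 + z⁻¹) + ((t : ZMod p) - 1)))
      (fun z => saw (c0 * (z + 2 + z⁻¹) + ((t : ZMod p) - 1))) := by
    refine mom_of (Ow (ZMod p)) _ _ _ _ B ε hB0 ?_ ?_ ?_ ?_ ?_ ?_ hεp
    · intro h hh
      exact av (h * c0) 0 (h * c0) _ (Or.inl (mul_ne_zero hh hc00)) fun z => by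
        congr 1; ring
    · intro h hh
      exact av 0 (h * c0) (h * c0) _ (Or.inr (mul_ne_zero hh hc00)) fun z => by
        congr 1; ring
    · intro h hh
      exact av (h * c0) (h * c0) (2 * h * c0) _ (Or.inl (mul_ne_zero hh hc00)) fun z => by
        congr 1; ring
    · intro h k hh hk
      exact av (h * c0) (k * c0) (h * c0 + k * c0) _ (Or.inl (mul_ne_zero hh hc00)) fun z => by
        rw [← AddChar.map_add_eq_mul]; congr 1; ring
    · intro h k hh hk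
      exact av ((h + k) * c0) (k * c0) (h * c0 + 2 * k * c0) _ (Or.inr (mul_ne_zero hk hc00))
        fun z => by rw [← AddChar.map_add_eq_mul]; congr 1; ring
    · intro h k hh hk
      exact av (k * c0) ((h + k) * c0) (h * c0 + 2 * k * c0) _ (Or.inl (mul_ne_zero hk hc00))
        fun z => by rw [← AddChar.map_add_eq_mul]; congr 1; ring
  -- cross sums
  have cr : ∀ (X : ZMod p → ZMod p) (_ : ∀ s ∈ Ow (ZMod p), X s ≠ 0)
      (A' B' : MulChar (ZMod p) ℂ) (h : ZMod N) (k : ZMod p) (_ : k ≠ 0)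
      (_ : Rep2 (fun z => chi hcardF hα h (X z)) A' B'),
      ‖∑ z ∈ Ow (ZMod p), (ZMod.stdAddChar (h * dl N α (X z)) : ℂ) *
        ZMod.stdAddChar (k * (c0 * (z + 1)))‖ ≤ B := by
    intro X hX A' B' h k hk hrep
    have e1 : ∑ z ∈ Ow (ZMod p), (ZMod.stdAddChar (h * dl N α (X z)) : ℂ) *
        ZMod.stdAddChar (k * (c0 * (z + 1)))
        = ∑ z ∈ Ow (ZMod p), chi hcardF hα h (X z) * ZMod.stdAddChar (z * (k * c0) + k * c0) := by
      refine Finset.sum_congr rfl fun z hz => ?_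
      rw [chi_apply hcardF hα h (hX z hz)]
      congr 2
      ring
    rw [e1]
    exact (hrep.bound_gen _ hψ (k * c0) (k * c0) (Or.inl (mul_ne_zero hk hc00))).trans hmBB
  have hmu : ∀ t : ℕ, t ≤ N + 1 → |muu N t| ≤ 1 / 2 + ε := fun t ht => by
    have := muu_le (N := N) t ht
    linarith
  have hmu' : ∀ t : ℕ, t ≤ p + 1 → |muu p t| ≤ 1 / 2 + ε := fun t ht => by
    have := muu_le (N := p) t ht
    have h2 : 1 / (2 * (p : ℝ)) ≤ 1 / (2 * (N : ℝ)) := by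
      apply one_div_le_one_div_of_le (by positivity)
      linarith
    linarith
  refine (l2_count (μ := muu N 0) (μ' := muu p t) hpos hε0 hε hM hM'
    (hmu 0 (Nat.zero_le _)) (hmu' t ht)
    (fun z hz => D_real_values 0 (Nat.zero_le _) _ _ _ (by
      rw [← dl_mul hcardF hα (nu z hz) (nv z hz)]
      congr 1
      have h1 := (Ow_facts hz).1
      have h2 := (Ow_facts hz).2
      field_simp))
    (fun z hz => D_real_values t ht _ _ _ (by ring))
    (fun s _ => saw_abs_le _) (fun s _ => saw_abs_le _) (fun s _ => saw_abs_le _)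
    (fun s _ => saw_abs_le _) (fun s _ => saw_abs_le _) (fun s _ => saw_abs_le _)
    ((cov_two (Ow (ZMod p)) _ _ _ _ _ hB0 (fun h k hh hk =>
      cr _ nu _ _ h k hk (rep_u _ _))).trans hcross)
    ((cov_two (Ow (ZMod p)) _ _ _ _ _ hB0 (fun h k hh hk => by
      have e1 := cr _ nu _ _ h k hk (rep_u (chi hcardF hα h) α)
      rw [← Ow_sum_inv] at e1
      refine le_trans (le_of_eq ?_) e1
      congr 1
      refine Finset.sum_congr rfl fun z hz => ?_
      have h1 := (Ow_facts hz).1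
      have e5 : α * (z + 1) ^ 2 * z⁻¹ = α * (z⁻¹ + 1) ^ 2 * z⁻¹⁻¹ := by
        rw [inv_inv]
        field_simp
        try ring
      have e6 : c0 * (1 + z⁻¹) = c0 * (z⁻¹ + 1) := by ring
      rw [e5, e6])).trans hcross)
    ((cov_two (Ow (ZMod p)) _ _ _ _ _ hB0 (fun h k hh hk =>
      cr _ nv _ _ h k hk (rep_v _))).trans hcross)
    ((cov_two (Ow (ZMod p)) _ _ _ _ _ hB0 (fun h k hh hk => by
      have e1 := cr (fun z => (z + 1)⁻¹) (fun z hz => inv_ne_zero (Ow_facts hz).2) _ _ h k hk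
        (rep_v' (chi hcardF hα h))
      rw [← Ow_sum_inv] at e1
      refine le_trans (le_of_eq ?_) e1
      congr 1
      refine Finset.sum_congr rfl fun z hz => ?_
      have h1 := (Ow_facts hz).1
      have h2 := (Ow_facts hz).2
      have h3 := (Ow_facts (Ow_inv hz)).2
      have e5 : z * (z + 1)⁻¹ = (z⁻¹ + 1)⁻¹ := by
        apply eq_inv_of_mul_eq_one_left
        field_simp
        try ring
      have e6 : c0 * (1 + z⁻¹) = c0 * (z⁻¹ + 1) := by ring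
      rw [e5, e6])).trans hcross)).trans ?_
  have hsub := Finset.card_le_card (Finset.monotone_filter_right (Ow (ZMod p)) (p := fun z =>
      saw (dl N α (α * (z + 1) ^ 2 * z⁻¹) + (((0 : ℕ) : ZMod N) - 1)) +
        saw (dl N α (z * (z + 1)⁻¹) + (((0 : ℕ) : ZMod N) - 1)) -
        saw (dl N α (α * (z + 1)) + (((0 : ℕ) : ZMod N) - 1)) + muu N 0 = 0 ∧
      saw (c0 * (z + 1) + ((t : ZMod p) - 1)) + saw (c0 * (1 + z⁻¹) + ((t : ZMod p) - 1)) -
        saw (c0 * (z + 2 + z⁻¹) + ((t : ZMod p) - 1)) + muu p t = 0)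
      (q := fun z =>
      rep 0 (dl N α (α * (z + 1) ^ 2 * z⁻¹)) + rep 0 (dl N α (z * (z + 1)⁻¹))
        = rep 0 (dl N α (α * (z + 1))) ∧
      rep t (A * α * (z + 1)) + rep t (A * α * (1 + z⁻¹)) = rep t (A * α * (z + 2 + z⁻¹)))
      (fun s _ hs => ⟨D_zero 0 _ _ _ hs.1, D_zero t _ _ _ hs.2⟩))
  have hsub' := (Nat.cast_le (α := ℝ)).2 hsub
  exact mul_le_mul_of_nonneg_left hsub' (by norm_num)

end Pool.Agent.Y799.CO
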