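import Mathlib
import Pool.Agent.Helper916.General
import Pool.Agent.Y799.CO.Cnt
import Pool.Agent.Y799.CO.Asy

/-!
# Robust and explicit failure of the corner-dot constructions
-/

set_option autoImplicit false

open Finset

namespace Pool.Agent.Y799.CO

open Pool.Agent.Helper916

/-- the difference vectors of the dots over `S` are pairwise distinct -/
def DistinctOn (S : Finset ℕ) (f : ℕ → ℕ) : Prop :=
  ∀ i ∈ S, ∀ j ∈ S, ∀ k ∈ S, ∀ l ∈ S, j < i → l < k →
    (i : ℤ) - j = (k : ℤ) - l → (f i : ℤ) - f j = (f k : ℤ) - f l → i = k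

theorem violation_on {S : Finset ℕ} {f : ℕ → ℕ} (hf : DistinctOn S f) {o p r q : ℕ}
    (ho : o ∈ S) (hp : p ∈ S) (hr : r ∈ S) (hq : q ∈ S)
    (hpo : p ≠ o) (hro : r ≠ o) (h1 : (q : ℤ) - p = (r : ℤ) - o)
    (h2 : (f q : ℤ) - f p = (f r : ℤ) - f o) : False := by
  rcases lt_or_gt_of_ne hro with h | h
  · have e1 : (p : ℤ) - q = (o : ℤ) - r := by linarith
    have e2 : (f p : ℤ) - f q = (f o : ℤ) - f r := by linarith
    have : q < p := by omega
    exact hpo (hf p hp q hq o ho r hr this h e1 e2)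
  · have : p < q := by omega
    have e := hf q hq p hp r hr o ho this h h1 h2
    apply hpo
    omega

/-- counting by three maps -/
theorem card_le_four {ι : Type*} [DecidableEq ι] {Z : Finset ι} {T : Finset ℕ} (a b c : ι → ℕ)
    (h : ∀ s ∈ Z, a s ∈ T ∨ b s ∈ T ∨ c s ∈ T)
    (ha : ∀ s ∈ Z, ∀ s' ∈ Z, a s = a s' → s = s')
    (hb : ∀ s ∈ Z, ∀ s' ∈ Z, b s = b s' → s = s') (g : ι → ι)
    (hc : ∀ s ∈ Z, ∀ s' ∈ Z, c s = c s' → s = s' ∨ s = g s') :
    Z.card ≤ 4 * T.card := by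
  classical
  have h1 : Z ⊆ (Z.filter fun s => a s ∈ T) ∪ ((Z.filter fun s => b s ∈ T) ∪
      (Z.filter fun s => c s ∈ T)) := by
    intro s hs
    simp only [mem_union, mem_filter]
    rcases h s hs with h | h | h
    · exact Or.inl ⟨hs, h⟩
    · exact Or.inr (Or.inl ⟨hs, h⟩)
    · exact Or.inr (Or.inr ⟨hs, h⟩)
  have h2 : (Z.filter fun s => a s ∈ T).card ≤ T.card := by
    refine Finset.card_le_card_of_injOn a (fun s hs => (mem_filter.1 hs).2) ?_
    intro s hs s' hs' he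
    exact ha s (mem_filter.1 hs).1 s' (mem_filter.1 hs').1 he
  have h3 : (Z.filter fun s => b s ∈ T).card ≤ T.card := by
    refine Finset.card_le_card_of_injOn b (fun s hs => (mem_filter.1 hs).2) ?_
    intro s hs s' hs' he
    exact hb s (mem_filter.1 hs).1 s' (mem_filter.1 hs').1 he
  have h4 : (Z.filter fun s => c s ∈ T).card ≤ 2 * T.card := by
    refine Finset.card_le_mul_card_image_of_maps_to (f := c) (fun s hs => (mem_filter.1 hs).2) 2 ?_
    intro t _
    rcases Finset.eq_empty_or_nonempty ((Z.filter fun s => c s ∈ T).filter fun s => c s = t) with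
      he | ⟨s0, hs0⟩
    · rw [he]; simp
    · refine (Finset.card_le_card (t := {s0, g s0}) ?_).trans Finset.card_le_two
      intro s hs
      rw [mem_filter, mem_filter] at hs hs0
      rcases hc s hs.1.1 s0 hs0.1.1 (hs.2.trans hs0.2.symm) with h | h
      · simp [h]
      · simp [h]
  have h5 := (Finset.card_le_card h1).trans (Finset.card_union_le _ _)
  have h6 := Finset.card_union_le (Z.filter fun s => b s ∈ T) (Z.filter fun s => c s ∈ T)
  omega

section Gol

theorem golomb_robust {F : Type} [Field F] [Fintype F]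
    {N : ℕ} (hN : Fintype.card F = N + 1) (hcard : 10 ^ 80 ≤ Fintype.card F) {α β : F}
    (hα : orderOf α = N) (hβ : orderOf β = N)
    {t1 t2 : ℕ} (h11 : 1 ≤ t1) (h1N : t1 ≤ N) (h21 : 1 ≤ t2) (h2N : t2 ≤ N) {f : ℕ → ℕ}
    (hrange : ∀ i, 1 ≤ i → i ≤ N → 1 ≤ f i ∧ f i ≤ N) (hft : f t1 = t2)
    (hdots : ∀ i, 1 ≤ i → i ≤ N → i ≠ t1 → α ^ ((i : ℤ) - t1) + β ^ ((f i : ℤ) - t2) = 1)
    {S : Finset ℕ} (hS : S ⊆ Icc 1 N) (hSt : t1 ∈ S) (hD : DistinctOn S f) :
    N + 1 ≤ 200000 * (N - S.card) := by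
  classical
  have hNbig : 19999 ≤ N := by
    have h1 : 20000 ≤ 10 ^ 80 := by norm_num
    have h2 : 20000 ≤ Fintype.card F := h1.trans hcard
    omega
  have : NeZero N := ⟨by omega⟩
  have hcR : (Fintype.card F : ℝ) = N + 1 := by rw [hN]; push_cast; ring
  have hqR : (10 : ℝ) ^ 80 ≤ (Fintype.card F : ℝ) := by exact_mod_cast hcard
  obtain ⟨hb1, hb2⟩ := asyG hqR
  set q : ℝ := (Fintype.card F : ℝ) with hq
  have hNR : (19999 : ℝ) ≤ N := by exact_mod_cast hNbig
  have hNpos : (0 : ℝ) < N := by linarith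
  have hB1 : 0 ≤ B1 q := Real.sqrt_nonneg _
  have hmB : 0 ≤ mB q := Real.sqrt_nonneg _
  have hlog : Real.log N ≤ Real.log q := Real.log_le_log hNpos (by linarith)
  have hlog0 : 0 ≤ Real.log N := Real.log_natCast_nonneg N
  have hsq : (1 + Real.log N) ^ 2 ≤ (1 + Real.log q) ^ 2 :=
    pow_le_pow_left₀ (by linarith) (by linarith) 2
  -- description of a dot
  have hα0 : α ≠ 0 := by
    intro h0
    rw [h0, orderOf_zero] at hα
    exact NeZero.ne N hα.symm
  have dot : ∀ X : F, X ≠ 0 → X ≠ 1 → ∃ i : ℕ, 1 ≤ i ∧ i ≤ N ∧ i ≠ t1 ∧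
      (i : ℤ) - t1 = rep t1 (dl N α X) ∧ (f i : ℤ) - t2 = rep t2 (dl N β (1 - X)) ∧
      α ^ ((i : ℤ) - t1) = X := by
    intro X hX0 hX1
    have l1 := rep_lb t1 (dl N α X)
    have l2 := rep_ub t1 (dl N α X)
    set I := rep t1 (dl N α X) with hI
    obtain ⟨i, hi⟩ := Int.eq_ofNat_of_zero_le (show 0 ≤ I + t1 by linarith)
    have hi1 : 1 ≤ i := by
      have : (1 : ℤ) ≤ i := by rw [← hi]; linarith
      exact_mod_cast this
    have hi2 : i ≤ N := by
      have : (i : ℤ) ≤ N := by rw [← hi]; linarith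
      exact_mod_cast this
    have hiI : (i : ℤ) - t1 = I := by linarith
    have hpow : α ^ ((i : ℤ) - t1) = X := by
      apply pow_of_dl hN hα hX0
      rw [hiI, hI, rep_cast]
    have hit : i ≠ t1 := by
      intro h
      apply hX1
      rw [← hpow, h, sub_self, zpow_zero]
    have h1 := hdots i hi1 hi2 hit
    rw [hpow] at h1
    have h2 : β ^ ((f i : ℤ) - t2) = 1 - X := by rw [← h1]; ring
    have h3 := dl_of_pow hβ h2
    have h4 := hrange i hi1 hi2
    refine ⟨i, hi1, hi2, hit, hiI, ?_, hpow⟩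
    apply rep_unique
    · have : (1 : ℤ) ≤ f i := by exact_mod_cast h4.1
      linarith
    · have : (f i : ℤ) ≤ N := by exact_mod_cast h4.2
      linarith
    · exact h3
  choose! idx hidx using dot
  have hinj : ∀ X Y : F, X ≠ 0 → X ≠ 1 → Y ≠ 0 → Y ≠ 1 → idx X = idx Y → X = Y := by
    intro X Y h1 h2 h3 h4 h
    have e1 := (hidx X h1 h2).2.2.2.2.2
    have e2 := (hidx Y h3 h4).2.2.2.2.2
    rw [← e1, ← e2, h]
  set T : Finset ℕ := Icc 1 N \ S with hT
  have hTcard : T.card = N - S.card := by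
    rw [hT, Finset.card_sdiff_of_subset hS, Nat.card_Icc, Nat.add_sub_cancel]
  have hmemT : ∀ X : F, X ≠ 0 → X ≠ 1 → idx X ∉ T → idx X ∈ S := by
    intro X h1 h2 h3
    by_contra h4
    obtain ⟨i1, i2, -⟩ := hidx X h1 h2
    exact h3 (mem_sdiff.2 ⟨mem_Icc.2 ⟨i1, i2⟩, h4⟩)
  rw [← hTcard]
  by_cases h2 : (2 : F) = 0
  · -- characteristic two
    have hbig : 1024 * (mB q * (1 + Real.log N) ^ 2) ≤ q - 2 := by
      have e1 : mB q * (1 + Real.log N) ^ 2 ≤ mB q * (1 + Real.log q) ^ 2 :=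
        mul_le_mul_of_nonneg_left hsq hmB
      linarith
    have hcount := golomb_even_count hN h2 hα hβ h11 h1N h21 h2N hbig (by omega)
    set Z : Finset F := (Ow F).filter fun x =>
      (1 - (t1 : ℤ) ≤ 2 * rep t1 (dl N α x) ∧ 2 * rep t1 (dl N α x) ≤ N - (t1 : ℤ)) ∧
      (1 - (t2 : ℤ) ≤ 2 * rep t2 (dl N β (1 - x)) ∧
        2 * rep t2 (dl N β (1 - x)) ≤ N - (t2 : ℤ)) with hZ
    have hone : (1 : F) + 1 = 0 := by rw [← h2]; norm_num
    have hfacts : ∀ x ∈ Z, x ≠ 0 ∧ x ≠ 1 ∧ x * x ≠ 0 ∧ x * x ≠ 1 := by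
      intro x hx
      obtain ⟨hx0, hx1⟩ := Ow_facts (mem_filter.1 hx).1
      have hx1' : x ≠ 1 := by
        intro h
        apply hx1
        rw [h, hone]
      refine ⟨hx0, hx1', mul_ne_zero hx0 hx0, ?_⟩
      intro h
      have : (x - 1) * (x - 1) = 0 := by linear_combination h + (1 - x) * h2
      rcases mul_eq_zero.mp this with h | h
      · exact hx1' (sub_eq_zero.mp h)
      · exact hx1' (sub_eq_zero.mp h)
    have h4 : Z.card ≤ 4 * T.card := by
      refine card_le_four (fun x => idx x) (fun x => idx (x * x)) (fun x => idx x) ?_ ?_ ?_ id ?_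
      · intro x hx
        obtain ⟨hx0, hx1, hxx0, hxx1⟩ := hfacts x hx
        obtain ⟨-, hw1, hw2⟩ := mem_filter.1 hx
        by_contra hcon
        push Not at hcon
        obtain ⟨k1, k2, -⟩ := hcon
        have m1 := hmemT x hx0 hx1 k1
        have m2 := hmemT (x * x) hxx0 hxx1 k2
        obtain ⟨i1, i2, i3, i4, i5, -⟩ := hidx x hx0 hx1
        obtain ⟨j1, j2, j3, j4, j5, -⟩ := hidx (x * x) hxx0 hxx1
        have h1x : (1 : F) - x ≠ 0 := sub_ne_zero.mpr (Ne.symm hx1)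
        have e1 : 2 * rep t1 (dl N α x) = rep t1 (dl N α (x * x)) := by
          apply rep_unique _ _ _ hw1.1 hw1.2
          push_cast
          rw [rep_cast, dl_mul hN hα hx0 hx0]; ring
        have e2 : 2 * rep t2 (dl N β (1 - x)) = rep t2 (dl N β (1 - x * x)) := by
          apply rep_unique _ _ _ hw2.1 hw2.2
          push_cast
          have : (1 : F) - x * x = (1 - x) * (1 - x) := by linear_combination (x - x * x) * h2
          rw [rep_cast, this, dl_mul hN hβ h1x h1x]; ring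
        refine violation_on hD hSt m1 m1 m2 i3 i3 (by linarith) ?_
        rw [hft]
        linarith
      · intro x hx y hy h
        obtain ⟨hx0, hx1, -⟩ := hfacts x hx
        obtain ⟨hy0, hy1, -⟩ := hfacts y hy
        exact hinj x y hx0 hx1 hy0 hy1 h
      · intro x hx y hy h
        obtain ⟨-, -, hx0, hx1⟩ := hfacts x hx
        obtain ⟨-, -, hy0, hy1⟩ := hfacts y hy
        have e := hinj _ _ hx0 hx1 hy0 hy1 h
        have e2 : (x - y) * (x - y) = 0 := by linear_combination e + (y * y - x * y) * h2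
        rcases mul_eq_zero.mp e2 with h | h
        · exact sub_eq_zero.mp h
        · exact sub_eq_zero.mp h
      · intro x hx y hy h
        obtain ⟨hx0, hx1, -⟩ := hfacts x hx
        obtain ⟨hy0, hy1, -⟩ := hfacts y hy
        exact Or.inl (hinj x y hx0 hx1 hy0 hy1 h)
    have h5 : (N : ℝ) - 1 ≤ 512 * Z.card := by linarith
    have h6 : N ≤ 512 * Z.card + 1 := by
      have : (N : ℝ) ≤ ((512 * Z.card + 1 : ℕ) : ℝ) := by push_cast; linarith
      exact_mod_cast this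
    omega
  · have hbig : B1 q * (1 + Real.log N) ^ 2 + 1 ≤ (1 / 20000) * (q - 3) := by
      have e1 : B1 q * (1 + Real.log N) ^ 2 ≤ B1 q * (1 + Real.log q) ^ 2 :=
        mul_le_mul_of_nonneg_left hsq hB1
      linarith
    have hNε : 1 / (2 * (N : ℝ)) ≤ 1 / 20000 := by
      apply one_div_le_one_div_of_le (by norm_num)
      linarith
    have hcount := golomb_odd_count hN h2 hα hβ (t1 := t1) (t2 := t2) (by omega)
      (by omega) (by norm_num) (le_refl _) hbig hNε
    set Z : Finset F := (Om F).filter fun s =>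
      rep t1 (dl N α ((1 + s)⁻¹)) + rep t1 (dl N α ((1 - s)⁻¹))
        = rep t1 (dl N α ((1 + s)⁻¹ * (1 - s)⁻¹)) ∧
      rep t2 (dl N β (s * (1 + s)⁻¹)) + rep t2 (dl N β (s * (s - 1)⁻¹))
        = rep t2 (dl N β ((s * (1 + s)⁻¹) * (s * (s - 1)⁻¹))) with hZ
    have alg : ∀ s ∈ Om F, 1 - (1 + s)⁻¹ = s * (1 + s)⁻¹ ∧ 1 - (1 - s)⁻¹ = s * (s - 1)⁻¹ ∧
        1 - (1 + s)⁻¹ * (1 - s)⁻¹ = (s * (1 + s)⁻¹) * (s * (s - 1)⁻¹) := by
      intro s hs
      obtain ⟨s0, sp, sm, ps, ms⟩ := Om_facts hs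
      have e0 : s - 1 = -(1 - s) := by ring
      refine ⟨?_, ?_, ?_⟩
      · field_simp; ring
      · rw [e0, inv_neg]
        field_simp
        ring
      · rw [e0, inv_neg]
        field_simp
        ring
    have hfacts : ∀ s ∈ Om F, (1 + s)⁻¹ ≠ 0 ∧ (1 + s)⁻¹ ≠ 1 ∧ (1 - s)⁻¹ ≠ 0 ∧ (1 - s)⁻¹ ≠ 1 ∧
        (1 + s)⁻¹ * (1 - s)⁻¹ ≠ 0 ∧ (1 + s)⁻¹ * (1 - s)⁻¹ ≠ 1 := by
      intro s hs
      obtain ⟨s0, sp, sm, ps, ms⟩ := Om_facts hs
      obtain ⟨ex, ey, ez⟩ := alg s hs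
      have hx0 : (1 + s)⁻¹ ≠ 0 := inv_ne_zero ps
      have hy0 : (1 - s)⁻¹ ≠ 0 := inv_ne_zero ms
      refine ⟨hx0, fun h => ?_, hy0, fun h => ?_, mul_ne_zero hx0 hy0, fun h => ?_⟩
      · have : 1 - (1 + s)⁻¹ = 0 := by rw [h]; ring
        rw [ex] at this
        exact mul_ne_zero s0 (inv_ne_zero ps) this
      · have : 1 - (1 - s)⁻¹ = 0 := by rw [h]; ring
        rw [ey] at this
        exact mul_ne_zero s0 (inv_ne_zero sm) this
      · have : 1 - (1 + s)⁻¹ * (1 - s)⁻¹ = 0 := by rw [h]; ring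
        rw [ez] at this
        exact mul_ne_zero (mul_ne_zero s0 (inv_ne_zero ps)) (mul_ne_zero s0 (inv_ne_zero sm)) this
    have h4 : Z.card ≤ 4 * T.card := by
      refine card_le_four (fun s => idx ((1 + s)⁻¹)) (fun s => idx ((1 - s)⁻¹))
        (fun s => idx ((1 + s)⁻¹ * (1 - s)⁻¹)) ?_ ?_ ?_ (fun s => -s) ?_
      · intro s hs
        obtain ⟨hsO, hs1, hs2⟩ := mem_filter.1 hs
        obtain ⟨hx0, hx1, hy0, hy1, hz0, hz1⟩ := hfacts s hsO
        obtain ⟨ex, ey, ez⟩ := alg s hsO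
        by_contra hcon
        push Not at hcon
        obtain ⟨k1, k2, k3⟩ := hcon
        have m1 := hmemT _ hx0 hx1 k1
        have m2 := hmemT _ hy0 hy1 k2
        have m3 := hmemT _ hz0 hz1 k3
        obtain ⟨i1, i2, i3, i4, i5, -⟩ := hidx _ hx0 hx1
        obtain ⟨j1, j2, j3, j4, j5, -⟩ := hidx _ hy0 hy1
        obtain ⟨l1, l2, l3, l4, l5, -⟩ := hidx _ hz0 hz1
        rw [← ez, ← ex, ← ey] at hs2
        refine violation_on hD hSt m1 m2 m3 i3 j3 (by linarith) ?_
        rw [hft]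
        linarith
      · intro s hs s' hs' h
        obtain ⟨hx0, hx1, -⟩ := hfacts s (mem_filter.1 hs).1
        obtain ⟨hy0, hy1, -⟩ := hfacts s' (mem_filter.1 hs').1
        have e := inv_injective (hinj _ _ hx0 hx1 hy0 hy1 h)
        exact add_left_cancel e
      · intro s hs s' hs' h
        obtain ⟨-, -, hx0, hx1, -⟩ := hfacts s (mem_filter.1 hs).1
        obtain ⟨-, -, hy0, hy1, -⟩ := hfacts s' (mem_filter.1 hs').1
        have e := inv_injective (hinj _ _ hx0 hx1 hy0 hy1 h)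
        linear_combination -e
      · intro s hs s' hs' h
        obtain ⟨-, -, -, -, hx0, hx1⟩ := hfacts s (mem_filter.1 hs).1
        obtain ⟨-, -, -, -, hy0, hy1⟩ := hfacts s' (mem_filter.1 hs').1
        have e := hinj _ _ hx0 hx1 hy0 hy1 h
        rw [← mul_inv, ← mul_inv] at e
        have e2 := inv_injective e
        have e3 : (s - s') * (s + s') = 0 := by linear_combination -e2
        rcases mul_eq_zero.mp e3 with h | h
        · exact Or.inl (sub_eq_zero.mp h)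
        · exact Or.inr (eq_neg_of_add_eq_zero_left h)
    have hOm := Om_card_ge (F := F)
    have h5 : (N : ℝ) ≤ 40000 * Z.card + 2 := by linarith
    have h6 : N ≤ 40000 * Z.card + 2 := by exact_mod_cast h5
    omega

theorem welch_robust {p : ℕ} (hp : p.Prime) (hcard : 10 ^ 36 ≤ p) {α A : ZMod p}
    (hα : orderOf α = p - 1) (hA : A ≠ 0) {t : ℕ} (ht1 : 1 ≤ t) (htp : t ≤ p) {f : ℕ → ℕ}
    (hrange : ∀ i, 1 ≤ i → i ≤ p → 1 ≤ f i ∧ f i ≤ p) (hft : f p = t)
    (hdots : ∀ i, 1 ≤ i → i ≤ p - 1 → (f i : ZMod p) = A * α ^ i + t)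
    {S : Finset ℕ} (hS : S ⊆ Icc 1 p) (hSp : p ∈ S) (hD : DistinctOn S f) :
    p ≤ 200000 * (p - S.card) := by
  classical
  have : Fact p.Prime := ⟨hp⟩
  obtain ⟨N, hN⟩ : ∃ N, p = N + 1 := ⟨p - 1, by have := hp.pos; omega⟩
  have hNp : p - 1 = N := by omega
  rw [hNp] at hα hdots
  have hNbig : 19999 ≤ N := by
    have h1 : 20000 ≤ 10 ^ 36 := by norm_num
    have h2 : 20000 ≤ p := h1.trans hcard
    omega
  have : NeZero N := ⟨by omega⟩
  have : NeZero p := ⟨hp.ne_zero⟩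
  have hqR : (10 : ℝ) ^ 36 ≤ (p : ℝ) := by exact_mod_cast hcard
  have hbig := asyW hqR
  have hNR : (19999 : ℝ) ≤ N := by exact_mod_cast hNbig
  have hcR : (p : ℝ) = N + 1 := by rw [hN]; push_cast; ring
  have hNε : 1 / (2 * (N : ℝ)) ≤ 1 / 20000 := by
    apply one_div_le_one_div_of_le (by norm_num)
    linarith
  have hα0 : α ≠ 0 := by
    intro h0
    rw [h0, orderOf_zero] at hα
    exact NeZero.ne N hα.symm
  have hcardF : Fintype.card (ZMod p) = N + 1 := by rw [ZMod.card, hN]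
  have hcount := welch_count hN hα hA (t := t) (by omega) (by norm_num) (le_refl _)
    hbig hNε
  set Z : Finset (ZMod p) := (Ow (ZMod p)).filter fun z =>
      rep 0 (dl N α (α * (z + 1) ^ 2 * z⁻¹)) + rep 0 (dl N α (z * (z + 1)⁻¹))
        = rep 0 (dl N α (α * (z + 1))) ∧
      rep t (A * α * (z + 1)) + rep t (A * α * (1 + z⁻¹)) =
        rep t (A * α * (z + 2 + z⁻¹)) with hZ
  -- the indices
  have idx' : ∀ X : ZMod p, X ≠ 0 → ∃ i : ℕ, 1 ≤ i ∧ i ≤ N ∧ (i : ℤ) = rep 0 (dl N α X) ∧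
      α ^ i = X := by
    intro X hX0
    have l1 := rep_lb 0 (dl N α X)
    have l2 := rep_ub 0 (dl N α X)
    set I := rep 0 (dl N α X) with hI
    push_cast at l1 l2
    obtain ⟨i, hi⟩ := Int.eq_ofNat_of_zero_le (show 0 ≤ I by linarith)
    have hi' : (i : ℤ) = I := hi.symm
    refine ⟨i, ?_, ?_, hi', ?_⟩
    · have : (1 : ℤ) ≤ i := by rw [hi']; linarith
      exact_mod_cast this
    · have : (i : ℤ) ≤ N := by rw [hi']; linarith
      exact_mod_cast this
    · have h1 : α ^ (i : ℤ) = X := by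
        apply pow_of_dl hcardF hα hX0
        rw [hi', hI, rep_cast]
      rwa [zpow_natCast] at h1
  choose! idx hidx using idx'
  have hinj : ∀ X Y : ZMod p, X ≠ 0 → Y ≠ 0 → idx X = idx Y → X = Y := by
    intro X Y h1 h2 h
    rw [← (hidx X h1).2.2.2, ← (hidx Y h2).2.2.2, h]
  -- values
  have hval : ∀ i : ℕ, 1 ≤ i → i ≤ N → (f i : ℤ) - t = rep t (A * α ^ i) := by
    intro i hi1 hi2
    have h4 := hrange i hi1 (by omega)
    apply rep_unique
    · have : (1 : ℤ) ≤ f i := by exact_mod_cast h4.1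
      linarith
    · have : (f i : ℤ) ≤ p := by exact_mod_cast h4.2
      linarith
    · push_cast
      rw [hdots i hi1 hi2]
      ring
  set T : Finset ℕ := Icc 1 p \ S with hT
  have hTcard : T.card = p - S.card := by
    rw [hT, Finset.card_sdiff_of_subset hS, Nat.card_Icc, Nat.add_sub_cancel]
  rw [← hTcard]
  have hmemT : ∀ i : ℕ, 1 ≤ i → i ≤ p → i ∉ T → i ∈ S := by
    intro i h1 h2 h3
    by_contra h4
    exact h3 (mem_sdiff.2 ⟨mem_Icc.2 ⟨h1, h2⟩, h4⟩)
  have hne : ∀ z ∈ Z, z ≠ 0 ∧ z + 1 ≠ 0 ∧ α * (z + 1) ^ 2 * z⁻¹ ≠ 0 ∧ z * (z + 1)⁻¹ ≠ 0 ∧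
      α * (z + 1) ≠ 0 := by
    intro z hz
    obtain ⟨z0, zp⟩ := Ow_facts (mem_filter.1 hz).1
    exact ⟨z0, zp, mul_ne_zero (mul_ne_zero hα0 (pow_ne_zero 2 zp)) (inv_ne_zero z0),
      mul_ne_zero z0 (inv_ne_zero zp), mul_ne_zero hα0 zp⟩
  have h4 : Z.card ≤ 4 * T.card := by
    refine card_le_four (fun z => idx (α * (z + 1))) (fun z => p - idx (z * (z + 1)⁻¹))
      (fun z => idx (α * (z + 1) ^ 2 * z⁻¹)) ?_ ?_ ?_ (fun z => z⁻¹) ?_
    · intro z hz
      obtain ⟨z0, zp, hU0, hV0, hW0⟩ := hne z hz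
      obtain ⟨-, hz1, hz2⟩ := mem_filter.1 hz
      by_contra hcon
      push Not at hcon
      obtain ⟨m1, m2, m3⟩ := hcon
      obtain ⟨j1, j2, j3, j4⟩ := hidx _ hU0
      obtain ⟨k1, k2, k3, k4⟩ := hidx _ hV0
      obtain ⟨l1, l2, l3, l4⟩ := hidx _ hW0
      set U := α * (z + 1) ^ 2 * z⁻¹ with hU
      set V := z * (z + 1)⁻¹ with hV
      set W := α * (z + 1) with hW
      have n1 := hmemT _ l1 (by omega) m1
      have n2 := hmemT (p - idx V) (by omega) (by omega) m2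
      have n3 := hmemT _ j1 (by omega) m3
      have hjk : idx U + idx V = idx W := by
        have : (idx U : ℤ) + idx V = idx W := by rw [j3, k3, l3]; exact hz1
        exact_mod_cast this
      have hk' : α ^ (p - idx V) = α * (V)⁻¹ := by
        have e1 : α ^ (p - idx V) * α ^ idx V = α * (α ^ N) := by
          rw [← pow_add, ← pow_succ']
          congr 1
          omega
        have e2 : α ^ N = 1 := by rw [← hα]; exact pow_orderOf_eq_one α
        rw [e2, mul_one, k4] at e1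
        calc α ^ (p - idx V) = α ^ (p - idx V) * V * V⁻¹ := by
              rw [mul_assoc, mul_inv_cancel₀ hV0, mul_one]
          _ = α * V⁻¹ := by rw [e1]
      have hfj := hval (idx U) j1 j2
      have hfl := hval (idx W) l1 l2
      have hfk := hval (p - idx V) (by omega) (by omega)
      rw [j4] at hfj
      rw [l4] at hfl
      rw [hk'] at hfk
      have ea : A * U = A * α * (z + 2 + z⁻¹) := by
        rw [hU]; field_simp; ring
      have eb : A * W = A * α * (z + 1) := by rw [hW]; ring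
      have ec : A * (α * V⁻¹) = A * α * (1 + z⁻¹) := by
        rw [hV, mul_inv, inv_inv]; field_simp
      rw [ea] at hfj
      rw [eb] at hfl
      rw [ec] at hfk
      have hpk : ((p - idx V : ℕ) : ℤ) = (p : ℤ) - idx V := by
        rw [Nat.cast_sub (by omega)]
      have := hD (idx W) n1 (idx U) n3 p hSp (p - idx V) n2 (by omega) (by omega)
        (by rw [hpk, ← hjk]; push_cast; ring) (by rw [hft]; linarith)
      omega
    · intro z hz z' hz' h
      obtain ⟨-, -, -, -, hW⟩ := hne z hz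
      obtain ⟨-, -, -, -, hW'⟩ := hne z' hz'
      have e := mul_left_cancel₀ hα0 (hinj _ _ hW hW' h)
      exact add_right_cancel e
    · intro z hz z' hz' h
      obtain ⟨z0, zp, -, hV, -⟩ := hne z hz
      obtain ⟨z0', zp', -, hV', -⟩ := hne z' hz'
      obtain ⟨k1, k2, -⟩ := hidx _ hV
      obtain ⟨k1', k2', -⟩ := hidx _ hV'
      have e := hinj _ _ hV hV' (by
        have h' : p - idx (z * (z + 1)⁻¹) = p - idx (z' * (z' + 1)⁻¹) := h
        omega)
      have e2 : z * (z' + 1) = z' * (z + 1) := by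
        have := congrArg (fun x => x * ((z + 1) * (z' + 1))) e
        rw [show z * (z + 1)⁻¹ * ((z + 1) * (z' + 1)) = z * (z' + 1) * ((z + 1)⁻¹ * (z + 1)) by
          ring, show z' * (z' + 1)⁻¹ * ((z + 1) * (z' + 1)) =
          z' * (z + 1) * ((z' + 1)⁻¹ * (z' + 1)) by ring, inv_mul_cancel₀ zp,
          inv_mul_cancel₀ zp', mul_one, mul_one] at this
        exact this
      linear_combination e2
    · intro z hz z' hz' h
      obtain ⟨z0, zp, hU, -, -⟩ := hne z hz
      obtain ⟨z0', zp', hU', -, -⟩ := hne z' hz'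
      have e := hinj _ _ hU hU' h
      rw [mul_assoc, mul_assoc] at e
      have e1 := mul_left_cancel₀ hα0 e
      have e2 : (z + 1) ^ 2 * z' = (z' + 1) ^ 2 * z := by
        have := congrArg (fun x => x * (z * z')) e1
        rw [show (z + 1) ^ 2 * z⁻¹ * (z * z') = (z + 1) ^ 2 * z' * (z⁻¹ * z) by ring,
          show (z' + 1) ^ 2 * z'⁻¹ * (z * z') = (z' + 1) ^ 2 * z * (z'⁻¹ * z') by ring,
          inv_mul_cancel₀ z0, inv_mul_cancel₀ z0', mul_one, mul_one] at this
        exact this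
      have e3 : (z - z') * (z * z' - 1) = 0 := by linear_combination e2
      rcases mul_eq_zero.mp e3 with h | h
      · exact Or.inl (sub_eq_zero.mp h)
      · exact Or.inr (eq_inv_of_mul_eq_one_left (sub_eq_zero.mp h))
  have hOw := Ow_card_ge (F := ZMod p)
  rw [ZMod.card] at hOw
  have h5 : (p : ℝ) ≤ 40000 * Z.card + 2 := by linarith
  have h6 : p ≤ 40000 * Z.card + 2 := by exact_mod_cast h5
  omega

end Gol

end Pool.Agent.Y799.CO
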